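import Pool.Agent.H78.STN.Stmts

/-!
Board STN, row ONE (helper33)
-/

set_option autoImplicit false

namespace Pool.STN

theorem one_it (m i s : ℕ) : F^[i] (F^[s] m) = F^[s + i] m := by
  rw [← Function.iterate_add_apply, Nat.add_comm]

theorem ONE_thm (h1 : ASCStmt) (h2 : DSCStmt) (h3 : CSQStmt) (h4 : TRIStmt) : ONEStmt := by
  intro m k hm hk hkm hlm
  obtain ⟨t2, tper, tdec, tinc, te0, te1⟩ := h4 m k hm hk hkm
  have hcard : ((Finset.range k).filter fun j =>
      (fun i => F^[i] m % 3 = 0) j ∧ ¬ (fun i => F^[i] m % 3 = 0) (j + 1)).card ≤ 1 := by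
    refine le_trans (le_of_eq ?_) hlm
    unfold lm
    congr 1
    apply Finset.filter_congr
    intro j _
    show (F^[j] m % 3 = 0 ∧ ¬ F^[j + 1] m % 3 = 0) ↔ _
    rw [← tdec j]
    have h := tinc (j + 1)
    constructor
    · rintro ⟨p, q⟩
      exact ⟨p, h.mpr q⟩
    · rintro ⟨p, q⟩
      exact ⟨p, h.mp q⟩
  obtain ⟨s, a, ha1, hak, hlo, hhi⟩ := h3 (fun i => F^[i] m % 3 = 0) k hk
    (fun i => by
      show F^[i + k] m % 3 = 0 ↔ F^[i] m % 3 = 0
      rw [tper i]) te0 te1 hcard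
  have hb1 : 1 ≤ k - a := by omega
  have hM1 : 1 ≤ F^[a] (F^[s] m) := by
    rw [one_it]
    have := t2 (s + a)
    omega
  have hd : ∀ i < k - a, F^[i] (F^[a] (F^[s] m)) % 3 = 0 := by
    intro i hi
    rw [one_it m a s, one_it m i (s + a), Nat.add_assoc]
    exact hhi (a + i) (by omega) (by omega)
  obtain ⟨t, ht1, hMt, hbt⟩ := h2 (F^[a] (F^[s] m)) (k - a) hM1 hd
  have hret : F^[k - a] (F^[a] (F^[s] m)) = F^[s] m := by
    rw [one_it m a s, one_it m (k - a) (s + a)]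
    have : s + a + (k - a) = s + k := by omega
    rw [this]
    exact tper s
  rw [hret] at hbt
  have hasc := h1 (F^[s] m) a (by have := t2 s; omega) ha1 (by
    intro i hi
    rw [one_it]
    exact hlo i hi)
  refine ⟨s, a, k - a, t, ha1, hb1, by omega, ht1, hbt, ?_, ?_, ?_⟩
  · intro i hi
    rw [← hbt, one_it]
    exact hlo i hi
  · rw [← hbt]
    exact hMt
  · rw [hMt] at hasc
    rw [hbt] at hasc
    have e : (3 : ℤ) ^ (a + (k - a)) * t - 2 ^ (2 * a + (k - a)) * t =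
        (3 : ℤ) ^ a * ((3 ^ (k - a) * t : ℕ) : ℤ) - 4 ^ a * ((2 ^ (k - a) * t : ℕ) : ℤ) := by
      push_cast
      have h4 : (4 : ℤ) ^ a = 2 ^ (2 * a) := by
        rw [pow_mul]
        norm_num
      rw [h4, pow_add, pow_add]
      ring
    rw [e]
    exact hasc

end Pool.STN
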